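import Pool.Agent.X250.Tri.Out

/-!
# The congruence subgroup property of `Out (F_n)` relative to the triangular automorphisms

Let `x_0, …, x_{n-1}` be a basis of the free group `F_n`.  An automorphism `ψ` is called triangular if
`ψ (x_i) = u x_i v` with elements `u` and `v` of the subgroup generated by the `x_j` with `j < i`, for all `i`.  The
triangular automorphisms form a subgroup of `Aut (F_n)`, an iterated extension of the groups `F_i × F_i`, which
contains free abelian subgroups of rank `2 n - 2`, and whose image in `Out (F_n)` contains free abelian subgroups of rank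
`2 n - 3`, the virtual cohomological dimension of `Out (F_n)`.

We show that the congruence subgroup property holds for the elements of these subgroups, for all bases at the same
time: for every subgroup `N` of finite index of `Aut (F_n)` there is one characteristic subgroup `K` of finite index of
`F_n` such that `N` contains all automorphisms which are triangular with respect to some basis and act trivially on
`F_n / K`; and if `N` contains the inner automorphisms then `N` contains all automorphisms which are triangular with
respect to some basis and act as inner automorphisms on `F_n / K`.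
-/

set_option autoImplicit false

namespace Pool.Agent.Results.MP_181555_al.TriangularAutomorphisms

open Pool.Agent.X250.Tri

/-- Let `N` be a subgroup of finite index of the automorphism group of the free group `F` of rank `n`.
(1) There is a characteristic subgroup `K` of finite index of `F` such that `N` contains all automorphisms `ψ` which act
trivially on `F / K` and have a conjugate `γ⁻¹ ψ γ` (`γ` an automorphism) which is triangular: it maps each generator
`x i` to a product `u * x i * v` with `u` and `v` in the subgroup generated by the `x j` with `j < i`.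
(2) If `N` contains all inner automorphisms then there is a characteristic subgroup `K` of finite index of `F` such that
`N` contains all automorphisms `ψ` which act as an inner automorphism on `F / K` and have a triangular conjugate. -/
theorem result (n : ℕ) (N : Subgroup (MulAut (FreeGroup (Fin n)))) (hN : N.FiniteIndex) :
    (∃ K : Subgroup (FreeGroup (Fin n)), K.Characteristic ∧ K.FiniteIndex ∧ ∀ ψ : MulAut (FreeGroup (Fin n)),
      (∃ γ : MulAut (FreeGroup (Fin n)), IsTri (γ⁻¹ * ψ * γ)) → (∀ x, ψ x * x⁻¹ ∈ K) → ψ ∈ N) ∧
    ((∀ g : FreeGroup (Fin n), MulAut.conj g ∈ N) →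
      ∃ K : Subgroup (FreeGroup (Fin n)), K.Characteristic ∧ K.FiniteIndex ∧ ∀ ψ : MulAut (FreeGroup (Fin n)),
        (∃ γ : MulAut (FreeGroup (Fin n)), IsTri (γ⁻¹ * ψ * γ)) →
          (∃ g : FreeGroup (Fin n), ∀ x, ψ x * (g * x * g⁻¹)⁻¹ ∈ K) → ψ ∈ N) := by
  have hc : N.normalCore.FiniteIndex := inferInstance
  obtain ⟨h1, h2⟩ := main N.normalCore
  have key : ∀ ψ γ : MulAut (FreeGroup (Fin n)), γ⁻¹ * ψ * γ ∈ N.normalCore → ψ ∈ N := by
    intro ψ γ h
    have h3 := (Subgroup.normalCore_normal N).conj_mem _ h γ
    have e : γ * (γ⁻¹ * ψ * γ) * γ⁻¹ = ψ := by group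
    rw [e] at h3
    exact Subgroup.normalCore_le N h3
  have hchar : ∀ (K : Subgroup (FreeGroup (Fin n))), K.Characteristic → ∀ (γ : MulAut (FreeGroup (Fin n)))
      (x : FreeGroup (Fin n)), x ∈ K → γ x ∈ K := fun K hK γ x hx =>
    Subgroup.characteristic_iff_le_comap.1 hK γ hx
  refine ⟨?_, fun hI => ?_⟩
  · obtain ⟨K, hK, hKf, h⟩ := h1
    refine ⟨K, hK, hKf, fun ψ hγ hψ => ?_⟩
    obtain ⟨γ, hγ⟩ := hγ
    refine key ψ γ (h _ hγ fun x => ?_)
    have h3 := hchar K hK γ⁻¹ _ (hψ (γ x))
    rw [map_mul, map_inv, MulAut.inv_apply_self] at h3
    exact h3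
  · obtain ⟨K, hK, hKf, h⟩ := h2 (fun g => by
      intro γ
      have e : γ * MulAut.conj g * γ⁻¹ = MulAut.conj (γ g) := by
        ext x
        rw [MulAut.mul_apply, MulAut.mul_apply, MulAut.conj_apply, MulAut.conj_apply, map_mul, map_mul, map_inv,
          MulAut.apply_inv_self]
      rw [e]
      exact hI (γ g))
    refine ⟨K, hK, hKf, fun ψ hγ hψ => ?_⟩
    obtain ⟨γ, hγ⟩ := hγ
    obtain ⟨g, hg⟩ := hψ
    refine key ψ γ (h _ hγ ⟨γ⁻¹ g, fun x => ?_⟩)
    have h3 := hchar K hK γ⁻¹ _ (hg (γ x))
    rw [map_mul, map_inv, map_mul, map_mul, map_inv, MulAut.inv_apply_self] at h3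
    exact h3

end Pool.Agent.Results.MP_181555_al.TriangularAutomorphisms
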